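import Mathlib
import Pool.Agent.S06599

/-!
# Superexponential convergence of the iterates and the essential spectrum of `C_φ`

`H²` is the space of square summable Taylor coefficient sequences, with `val f z` the value of the
function `f` at the point `z` of the disc. The essential spectrum is the spectrum of the image in
the Calkin algebra. The norm `‖g‖₂` of a function on the disc is the supremum of its quadratic
means over the circles of radius `r < 1`.
-/

set_option autoImplicit false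

open Complex Filter Topology Metric
open scoped ENNReal

namespace Pool.Agent.Results.MP_ed6c6b_an.CalkinSpectrum

/-- The Hardy space `H²` of the unit disc (Taylor coefficients in `ℓ²`). -/
abbrev H2 : Type := lp (fun _ : ℕ => ℂ) 2

/-- The value at `z` of the function with Taylor coefficients `f`. -/
noncomputable def val (f : H2) (z : ℂ) : ℂ := ∑' n : ℕ, f n * z ^ n

/-- The `H²` norm of a function on the unit disc. -/
noncomputable def hnorm (g : ℂ → ℂ) : ℝ :=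
  √(⨆ r : Set.Ico (0 : ℝ) 1, Real.circleAverage (fun z => ‖g z‖ ^ 2) 0 r)

/-- `T` is the composition operator `f ↦ f ∘ φ` of `H²`. -/
def IsComp (φ : ℂ → ℂ) (T : H2 →L[ℂ] H2) : Prop :=
  ∀ f : H2, ∀ z ∈ ball (0 : ℂ) 1, val (T f) z = val f (φ z)

section general

variable {E : Type} [NormedAddCommGroup E] [NormedSpace ℂ E]

variable (E) in
/-- The ideal of compact operators. -/
noncomputable def cpt : TwoSidedIdeal (E →L[ℂ] E) :=
  TwoSidedIdeal.mk' {K | IsCompactOperator (⇑K)} isCompactOperator_zero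
    (fun hx hy => hx.add hy) (fun hx => hx.neg)
    (fun {x _} hy => hy.clm_comp x) (fun {_ y} hx => hx.comp_clm y)

variable (E) in
/-- The Calkin algebra: bounded operators modulo compact operators. -/
abbrev Calkin : Type := (cpt E).ringCon.Quotient

/-- The image of an operator in the Calkin algebra. -/
noncomputable def img (T : E →L[ℂ] E) : Calkin E := (cpt E).ringCon.mk' T

/-- The essential spectrum. -/
noncomputable def essSpec (T : E →L[ℂ] E) : Set ℂ := spectrum ℂ (img T)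

/-- The essential spectral radius. -/
noncomputable def essRad (T : E →L[ℂ] E) : ℝ≥0∞ := spectralRadius ℂ (img T)

end general

lemma mem_cpt (K : H2 →L[ℂ] H2) : K ∈ cpt H2 ↔ IsCompactOperator (⇑K) := by
  unfold cpt
  rw [TwoSidedIdeal.mem_mk']
  rfl

lemma img_eq_iff (S T : H2 →L[ℂ] H2) : img S = img T ↔ IsCompactOperator (⇑(S - T)) := by
  rw [← mem_cpt, ← TwoSidedIdeal.rel_iff]
  exact RingCon.eq (cpt H2).ringCon

lemma img_mul (S T : H2 →L[ℂ] H2) : img (S * T) = img S * img T := map_mul (cpt H2).ringCon.mk' _ _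

lemma img_sub (S T : H2 →L[ℂ] H2) : img (S - T) = img S - img T := map_sub (cpt H2).ringCon.mk' _ _

lemma img_one : img (1 : H2 →L[ℂ] H2) = 1 := map_one (cpt H2).ringCon.mk'

lemma img_alg (c : ℂ) : img (algebraMap ℂ (H2 →L[ℂ] H2) c) = algebraMap ℂ (Calkin H2) c := rfl

lemma img_surj (x : Calkin H2) : ∃ T : H2 →L[ℂ] H2, img T = x := RingCon.mk'_surjective _ x

/-- The quotient map as an algebra homomorphism. -/
noncomputable def imgA : (H2 →L[ℂ] H2) →ₐ[ℂ] Calkin H2 := (cpt H2).ringCon.mkₐ (α := ℂ)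

lemma imgA_apply (T : H2 →L[ℂ] H2) : imgA T = img T := rfl

/-- The norm in the Calkin algebra. -/
noncomputable def cnorm (T : H2 →L[ℂ] H2) : ℝ :=
  ⨅ K : {K : H2 →L[ℂ] H2 // IsCompactOperator (⇑K)}, ‖T - K.1‖

lemma exists_cpt (T : H2 →L[ℂ] H2) (ε : ℝ) (h : cnorm T < ε) :
    ∃ K : H2 →L[ℂ] H2, IsCompactOperator (⇑K) ∧ ‖T - K‖ < ε := by
  have : Nonempty {K : H2 →L[ℂ] H2 // IsCompactOperator (⇑K)} := ⟨⟨0, isCompactOperator_zero⟩⟩
  obtain ⟨K, hK⟩ := exists_lt_of_ciInf_lt h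
  exact ⟨K.1, K.2, hK⟩

lemma norm_one_le : ‖(1 : H2 →L[ℂ] H2)‖ ≤ 1 := ContinuousLinearMap.norm_id_le

/-- From the root test to the existence of good approximations. -/
lemma exists_pow (T : H2 →L[ℂ] H2)
    (h : Tendsto (fun n : ℕ => (cnorm (T ^ n)) ^ ((n : ℝ)⁻¹)) atTop (𝓝 0)) (ε : ℝ) (hε : 0 < ε) :
    ∃ n : ℕ, 1 ≤ n ∧ ∃ K : H2 →L[ℂ] H2, IsCompactOperator (⇑K) ∧ ‖T ^ n - K‖ < ε ^ n := by
  obtain ⟨n, hn, hn1⟩ := ((h.eventually (gt_mem_nhds hε)).and (eventually_ge_atTop 1)).exists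
  refine ⟨n, hn1, exists_cpt _ _ ?_⟩
  have h0 : 0 ≤ cnorm (T ^ n) := Real.iInf_nonneg (fun K => norm_nonneg _)
  have hn0 : (0 : ℝ) < n := by exact_mod_cast hn1
  have h2 : cnorm (T ^ n) = (cnorm (T ^ n) ^ ((n : ℝ)⁻¹)) ^ n := by
    rw [← Real.rpow_natCast, ← Real.rpow_mul h0, inv_mul_cancel₀ hn0.ne', Real.rpow_one]
  rw [h2]
  exact pow_lt_pow_left₀ hn (Real.rpow_nonneg h0 _) (by omega)

lemma img_approx (T K : H2 →L[ℂ] H2) (hK : IsCompactOperator (⇑K)) : img (T - K) = img T := by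
  rw [img_eq_iff]
  have : T - K - T = -K := by abel
  rw [this]
  exact hK.neg

lemma img_pow (T : H2 →L[ℂ] H2) (n : ℕ) : img (T ^ n) = img T ^ n := map_pow (cpt H2).ringCon.mk' T n

lemma spec_sub (T : H2 →L[ℂ] H2)
    (h : Tendsto (fun n : ℕ => (cnorm (T ^ n)) ^ ((n : ℝ)⁻¹)) atTop (𝓝 0)) :
    essSpec T ⊆ {0} := by
  intro μ hμ
  by_contra hne
  have hμ0 : 0 < ‖μ‖ := norm_pos_iff.mpr hne
  obtain ⟨n, hn1, K, hK, hlt⟩ := exists_pow T h ‖μ‖ hμ0
  have h1 : μ ^ n ∈ spectrum ℂ (img T ^ n) := spectrum.pow_mem_pow _ n hμ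
  rw [← img_pow, ← img_approx _ K hK, ← imgA_apply] at h1
  have h2 : μ ^ n ∈ spectrum ℂ (T ^ n - K) := AlgHom.spectrum_apply_subset imgA _ h1
  have h3 := spectrum.norm_le_norm_mul_of_mem h2
  rw [norm_pow] at h3
  have h4 : ‖T ^ n - K‖ * ‖(1 : H2 →L[ℂ] H2)‖ ≤ ‖T ^ n - K‖ * 1 :=
    mul_le_mul_of_nonneg_left norm_one_le (norm_nonneg _)
  linarith

lemma infinite_dim : ¬ FiniteDimensional ℂ H2 := by
  intro hf
  have hli : LinearIndependent ℂ (fun n : ℕ => (lp.single 2 n (1 : ℂ) : H2)) := by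
    rw [linearIndependent_iff']
    intro s g hg i hi
    have h1 : (∑ j ∈ s, g j • (lp.single 2 j (1 : ℂ) : H2)) i = 0 := by rw [hg]; rfl
    rw [lp.coeFn_sum, Finset.sum_apply] at h1
    simp only [lp.coeFn_smul, Pi.smul_apply, lp.single_apply, smul_eq_mul] at h1
    rw [Finset.sum_eq_single i] at h1
    · simpa using h1
    · intro j _ hj
      simp [hj.symm]
    · intro h; exact absurd hi h
  have := hli.finite_of_isNoetherian
  exact not_finite ℕ

lemma one_not_cpt : ¬ IsCompactOperator (⇑(1 : H2 →L[ℂ] H2)) := by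
  intro h
  exact infinite_dim (isCompactOperator_id_iff_finiteDimensional.mp h)

lemma zero_mem_spec (T : H2 →L[ℂ] H2)
    (h : Tendsto (fun n : ℕ => (cnorm (T ^ n)) ^ ((n : ℝ)⁻¹)) atTop (𝓝 0)) :
    (0 : ℂ) ∈ essSpec T := by
  by_contra hcon
  have hu : IsUnit (img T) := by
    have h1 : IsUnit (algebraMap ℂ (Calkin H2) 0 - img T) := by
      have := spectrum.notMem_iff.mp hcon
      exact this
    rw [map_zero, zero_sub] at h1
    exact (IsUnit.neg_iff _).mp h1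
  obtain ⟨y, hy⟩ := hu.exists_left_inv
  obtain ⟨S, rfl⟩ := img_surj y
  have hε : 0 < 1 / (‖S‖ + 1) := by positivity
  obtain ⟨n, hn1, K, hK, hlt⟩ := exists_pow T h _ hε
  -- `S ^ n * (T ^ n - K)` is congruent to `1` and has norm `< 1`
  have hpow : ∀ m : ℕ, img S ^ m * img T ^ m = 1 := by
    intro m
    induction m with
    | zero => simp
    | succ m ih =>
      calc img S ^ (m + 1) * img T ^ (m + 1)
          = img S ^ m * (img S * img T) * img T ^ m := by
            rw [pow_succ, pow_succ']; simp only [mul_assoc]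
        _ = 1 := by rw [hy, mul_one, ih]
  have himg : img (S ^ n * (T ^ n - K)) = 1 := by
    rw [img_mul, img_approx _ K hK, img_pow, img_pow, hpow]
  have hnorm : ‖S ^ n * (T ^ n - K)‖ < 1 := by
    have hS : ‖S ^ n‖ ≤ ‖S‖ ^ n := norm_pow_le' S (by omega)
    calc ‖S ^ n * (T ^ n - K)‖ ≤ ‖S ^ n‖ * ‖T ^ n - K‖ := norm_mul_le _ _
      _ ≤ (‖S‖ + 1) ^ n * ‖T ^ n - K‖ := by
          apply mul_le_mul_of_nonneg_right _ (norm_nonneg _)
          exact hS.trans (pow_le_pow_left₀ (norm_nonneg _) (by linarith) n)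
      _ < (‖S‖ + 1) ^ n * (1 / (‖S‖ + 1)) ^ n :=
          mul_lt_mul_of_pos_left hlt (by positivity)
      _ = 1 := by
          rw [← mul_pow, mul_one_div_cancel (by positivity), one_pow]
  have hcpt : IsCompactOperator (⇑((1 : H2 →L[ℂ] H2) - S ^ n * (T ^ n - K))) := by
    rw [← img_eq_iff, himg, img_one]
  obtain ⟨u, hu⟩ := isUnit_one_sub_of_norm_lt_one hnorm
  have hone : (1 : H2 →L[ℂ] H2) = (↑u⁻¹ : H2 →L[ℂ] H2) * (1 - S ^ n * (T ^ n - K)) := by
    rw [← hu, Units.inv_mul]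
  apply one_not_cpt
  rw [hone]
  exact hcpt.clm_comp _

/-! ### The norm -/

lemma circ_scale (g : ℂ → ℝ) (r : ℝ) :
    Real.circleAverage g 0 r = Real.circleAverage (fun z => g (r * z)) 0 1 := by
  simp only [Real.circleAverage_def]
  congr 2
  funext θ
  congr 1
  simp [circleMap]

lemma coef_le (f : H2) (n : ℕ) : ‖f n‖ ≤ ‖f‖ := lp.norm_apply_le_norm (by norm_num) f n

lemma avg_tendsto (f : H2) (g : ℂ → ℂ) (hfg : ∀ z ∈ ball (0 : ℂ) 1, val f z = g z)
    (r : ℝ) (hr0 : 0 ≤ r) (hr1 : r < 1) :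
    Tendsto (fun N => ∑ n ∈ Finset.range N, ‖f n‖ ^ 2 * r ^ (2 * n)) atTop
      (𝓝 (Real.circleAverage (fun z => ‖g z‖ ^ 2) 0 r)) := by
  have h1 := Pool.Agent.S06599.parseval_tendsto (fun n => f n) ‖f‖ (coef_le f) r hr0 hr1
  have h2 : Real.circleAverage (fun z => ‖g z‖ ^ 2) 0 r =
      Real.circleAverage (fun z => ‖∑' n, f n * (r * z) ^ n‖ ^ 2) 0 1 := by
    rw [circ_scale]
    apply Real.circleAverage_congr_sphere
    intro z hz
    have hz1 : ‖z‖ = 1 := by simpa using hz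
    have hmem : (r : ℂ) * z ∈ ball (0 : ℂ) 1 := by
      rw [mem_ball_zero_iff, norm_mul, Complex.norm_real, Real.norm_of_nonneg hr0, hz1, mul_one]
      exact hr1
    have h3 := hfg _ hmem
    unfold val at h3
    simp only
    rw [← h3]
  rw [h2]
  exact h1

/-- The two definitions of the norm agree. -/
lemma hnorm_eq (f : H2) (g : ℂ → ℂ) (hfg : ∀ z ∈ ball (0 : ℂ) 1, val f z = g z) :
    hnorm g = ‖f‖ := by
  have hle : ∀ r : Set.Ico (0 : ℝ) 1,
      Real.circleAverage (fun z => ‖g z‖ ^ 2) 0 r ≤ ‖f‖ ^ 2 := by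
    intro r
    refine le_of_tendsto' (avg_tendsto f g hfg r.1 r.2.1 r.2.2) ?_
    intro N
    refine le_trans (Finset.sum_le_sum ?_) (Pool.Agent.S06599.lp_sum_le f (Finset.range N))
    intro n _
    have h1 : (r : ℝ) ^ (2 * n) ≤ 1 := pow_le_one₀ r.2.1 r.2.2.le
    nlinarith [sq_nonneg ‖f n‖]
  have hbdd : BddAbove (Set.range fun r : Set.Ico (0 : ℝ) 1 =>
      Real.circleAverage (fun z => ‖g z‖ ^ 2) 0 r) := ⟨‖f‖ ^ 2, by rintro _ ⟨r, rfl⟩; exact hle r⟩
  have hne : Nonempty (Set.Ico (0 : ℝ) 1) := ⟨⟨0, by norm_num, by norm_num⟩⟩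
  unfold hnorm
  apply le_antisymm
  · rw [show ‖f‖ = √(‖f‖ ^ 2) from (Real.sqrt_sq (norm_nonneg f)).symm]
    exact Real.sqrt_le_sqrt (ciSup_le hle)
  · apply Pool.Agent.S06599.lp_norm_le f _ (Real.sqrt_nonneg _)
    intro m
    have hS0 : 0 ≤ ⨆ r : Set.Ico (0 : ℝ) 1, Real.circleAverage (fun z => ‖g z‖ ^ 2) 0 r := by
      refine le_trans ?_ (le_ciSup hbdd ⟨0, by norm_num, by norm_num⟩)
      refine ge_of_tendsto' (avg_tendsto f g hfg 0 le_rfl (by norm_num)) ?_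
      intro N
      positivity
    rw [Real.sq_sqrt hS0]
    have hcont : Continuous (fun r : ℝ => ∑ n ∈ Finset.range m, ‖f n‖ ^ 2 * r ^ (2 * n)) := by
      fun_prop
    have hlim : Tendsto (fun r : ℝ => ∑ n ∈ Finset.range m, ‖f n‖ ^ 2 * r ^ (2 * n)) (𝓝[<] 1)
        (𝓝 (∑ n ∈ Finset.range m, ‖f n‖ ^ 2 * 1 ^ (2 * n))) :=
      (hcont.tendsto 1).mono_left nhdsWithin_le_nhds
    simp only [one_pow, mul_one] at hlim
    refine le_of_tendsto hlim ?_
    filter_upwards [Ioo_mem_nhdsLT (show (0 : ℝ) < 1 by norm_num)] with r hr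
    refine le_trans ?_ (le_ciSup hbdd ⟨r, hr.1.le, hr.2⟩)
    refine ge_of_tendsto (avg_tendsto f g hfg r hr.1.le hr.2) ?_
    filter_upwards [eventually_ge_atTop m] with k hk
    apply Finset.sum_le_sum_of_subset_of_nonneg
    · intro x hx; simp only [Finset.mem_range] at *; omega
    · intros
      have := hr.1
      positivity

/-- A function of `H²` is determined by its values. -/
lemma val_inj (f g : H2) (h : ∀ z ∈ ball (0 : ℂ) 1, val f z = val g z) : f = g := by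
  have h1 : ∀ z ∈ ball (0 : ℂ) 1, val (f - g) z = (fun _ => (0 : ℂ)) z := by
    intro z hz
    have hz' : ‖z‖ < 1 := by simpa using hz
    have s1 := Pool.Agent.S06599.summ (fun n => f n) ‖f‖ (coef_le f) z hz'
    have s2 := Pool.Agent.S06599.summ (fun n => g n) ‖g‖ (coef_le g) z hz'
    have h2 := h z hz
    unfold val at h2 ⊢
    simp only [lp.coeFn_sub, Pi.sub_apply, sub_mul]
    rw [s1.tsum_sub s2, h2, sub_self]
  have h2 := hnorm_eq _ _ h1
  have h3 : hnorm (fun _ : ℂ => (0 : ℂ)) = 0 := by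
    unfold hnorm
    simp [Real.circleAverage_def]
  rw [h3] at h2
  exact sub_eq_zero.mp (norm_eq_zero.mp h2.symm)

/-! ### Existence of the composition operator -/

lemma taylor (g : ℂ → ℂ) (hg : DifferentiableOn ℂ g (ball 0 1)) (B : ℝ)
    (hB : ∀ z ∈ ball (0 : ℂ) 1, ‖g z‖ ≤ B) :
    ∃ b : ℕ → ℂ, (∀ n, ‖b n‖ ≤ B) ∧ ∀ z ∈ ball (0 : ℂ) 1, ∑' n, b n * z ^ n = g z := by
  refine ⟨fun n => ((n.factorial : ℕ) : ℂ)⁻¹ * iteratedDeriv n g 0, ?_, ?_⟩
  · intro n
    have key : ∀ r : ℝ, 0 < r → r < 1 →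
        ‖((n.factorial : ℕ) : ℂ)⁻¹ * iteratedDeriv n g 0‖ * r ^ n ≤ B := by
      intro r hr0 hr1
      have hsub : closedBall (0 : ℂ) r ⊆ ball 0 1 := closedBall_subset_ball hr1
      have h1 : DiffContOnCl ℂ g (ball 0 r) := by
        apply DifferentiableOn.diffContOnCl
        rw [closure_ball (0 : ℂ) hr0.ne']
        exact hg.mono hsub
      have h2 := Complex.norm_iteratedDeriv_le_of_forall_mem_sphere_norm_le n hr0 h1
        (fun z hz => hB z (hsub (sphere_subset_closedBall hz)))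
      have hf : (0 : ℝ) < n.factorial := by exact_mod_cast n.factorial_pos
      rw [norm_mul, norm_inv, Complex.norm_natCast]
      calc (n.factorial : ℝ)⁻¹ * ‖iteratedDeriv n g 0‖ * r ^ n
          ≤ (n.factorial : ℝ)⁻¹ * (n.factorial * B / r ^ n) * r ^ n := by gcongr
        _ = B := by field_simp
    have hlim : Tendsto (fun r : ℝ => ‖((n.factorial : ℕ) : ℂ)⁻¹ * iteratedDeriv n g 0‖ * r ^ n)
        (𝓝[<] 1) (𝓝 (‖((n.factorial : ℕ) : ℂ)⁻¹ * iteratedDeriv n g 0‖ * 1 ^ n)) := by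
      apply Tendsto.mono_left _ nhdsWithin_le_nhds
      exact (by fun_prop : Continuous (fun r : ℝ =>
        ‖((n.factorial : ℕ) : ℂ)⁻¹ * iteratedDeriv n g 0‖ * r ^ n)).tendsto 1
    rw [one_pow, mul_one] at hlim
    refine le_of_tendsto hlim ?_
    filter_upwards [Ioo_mem_nhdsLT (show (0 : ℝ) < 1 by norm_num)] with r hr
    exact key r hr.1 hr.2
  · intro z hz
    have := Complex.taylorSeries_eq_on_ball' hz hg
    simpa using this

/-- Bounded analytic functions are in `H²`. -/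
lemma bdd_mem (g : ℂ → ℂ) (hg : DifferentiableOn ℂ g (ball 0 1)) (B : ℝ)
    (hB : ∀ z ∈ ball (0 : ℂ) 1, ‖g z‖ ≤ B) :
    ∃ v : H2, ∀ z ∈ ball (0 : ℂ) 1, val v z = g z := by
  obtain ⟨b, hb, hbg⟩ := taylor g hg B hB
  have hB0 : 0 ≤ B := (norm_nonneg _).trans (hB 0 (by simp))
  have key : ∀ m : ℕ, ∑ n ∈ Finset.range m, ‖b n‖ ^ 2 ≤ B ^ 2 := by
    intro m
    have h1 : ∀ r : ℝ, 0 < r → r < 1 →
        ∑ n ∈ Finset.range m, ‖b n‖ ^ 2 * r ^ (2 * n) ≤ B ^ 2 := by
      intro r hr0 hr1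
      have ht := Pool.Agent.S06599.parseval_tendsto b B hb r hr0.le hr1
      have hmem : ∀ z ∈ sphere (0 : ℂ) |1|, (r : ℂ) * z ∈ ball (0 : ℂ) 1 := by
        intro z hz
        have hz1 : ‖z‖ = 1 := by simpa using hz
        rw [mem_ball_zero_iff, norm_mul, Complex.norm_real, Real.norm_of_nonneg hr0.le, hz1,
          mul_one]
        exact hr1
      have heq : Set.EqOn (fun z => ‖∑' n, b n * (r * z) ^ n‖ ^ 2) (fun z => ‖g (r * z)‖ ^ 2)
          (sphere (0 : ℂ) |1|) := by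
        intro z hz
        simp only
        rw [hbg _ (hmem z hz)]
      have hcont : ContinuousOn (fun z : ℂ => ‖g (r * z)‖ ^ 2) (sphere (0 : ℂ) |1|) := by
        apply ContinuousOn.pow
        apply ContinuousOn.norm
        exact hg.continuousOn.comp (by fun_prop) (fun z hz => hmem z hz)
      have h2 : Real.circleAverage (fun z => ‖∑' n, b n * (r * z) ^ n‖ ^ 2) 0 1 ≤ B ^ 2 := by
        rw [Real.circleAverage_congr_sphere heq]
        apply Real.circleAverage_mono_on_of_le_circle (ContinuousOn.circleIntegrable' hcont)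
        intro z hz
        exact pow_le_pow_left₀ (norm_nonneg _) (hB _ (hmem z hz)) 2
      refine le_trans ?_ h2
      refine ge_of_tendsto ht ?_
      filter_upwards [eventually_ge_atTop m] with k hk
      apply Finset.sum_le_sum_of_subset_of_nonneg
      · intro x hx; simp only [Finset.mem_range] at *; omega
      · intros; positivity
    have hcont : Continuous (fun r : ℝ => ∑ n ∈ Finset.range m, ‖b n‖ ^ 2 * r ^ (2 * n)) := by
      fun_prop
    have hlim : Tendsto (fun r : ℝ => ∑ n ∈ Finset.range m, ‖b n‖ ^ 2 * r ^ (2 * n)) (𝓝[<] 1)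
        (𝓝 (∑ n ∈ Finset.range m, ‖b n‖ ^ 2 * 1 ^ (2 * n))) :=
      (hcont.tendsto 1).mono_left nhdsWithin_le_nhds
    simp only [one_pow, mul_one] at hlim
    refine le_of_tendsto hlim ?_
    filter_upwards [Ioo_mem_nhdsLT (show (0 : ℝ) < 1 by norm_num)] with r hr
    exact h1 r hr.1 hr.2
  have hmem : Memℓp b 2 := by
    apply memℓp_gen' (C := B ^ 2)
    intro s
    obtain ⟨m, hm⟩ : ∃ m, s ⊆ Finset.range m := ⟨s.sup id + 1, fun x hx => by
      simp only [Finset.mem_range]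
      exact Nat.lt_succ_of_le (Finset.le_sup (f := id) hx)⟩
    have := (Finset.sum_le_sum_of_subset_of_nonneg hm (f := fun n => ‖b n‖ ^ 2)
      (fun _ _ _ => by positivity)).trans (key m)
    simpa using this
  exact ⟨⟨b, hmem⟩, hbg⟩

/-- Evaluation at a point of the disc. -/
lemma exists_eval (z : ℂ) (hz : ‖z‖ < 1) : ∃ L : H2 →L[ℂ] ℂ, ∀ f : H2, L f = val f z := by
  have hs : ∀ f : H2, Summable (fun n => f n * z ^ n) := fun f =>
    Pool.Agent.S06599.summ (fun n => f n) ‖f‖ (coef_le f) z hz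
  let L0 : H2 →ₗ[ℂ] ℂ :=
    { toFun := fun f => val f z
      map_add' := by
        intro f g
        unfold val
        rw [← (hs f).tsum_add (hs g)]
        apply tsum_congr
        intro n
        rw [lp.coeFn_add, Pi.add_apply, add_mul]
      map_smul' := by
        intro c f
        unfold val
        rw [RingHom.id_apply, smul_eq_mul, ← tsum_mul_left]
        apply tsum_congr
        intro n
        rw [lp.coeFn_smul, Pi.smul_apply, smul_eq_mul, mul_assoc] }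
  refine ⟨L0.mkContinuous (1 - ‖z‖)⁻¹ ?_, fun f => rfl⟩
  intro f
  have h1 : Tendsto (fun N => ∑ n ∈ Finset.range N, f n * z ^ n) atTop (𝓝 (val f z)) :=
    (hs f).hasSum.tendsto_sum_nat
  refine le_of_tendsto' h1.norm ?_
  intro N
  have := Pool.Agent.S06599.part_bound (fun n => f n) ‖f‖ (coef_le f) ‖z‖ (norm_nonneg z) hz z
    le_rfl N
  rw [mul_comm]
  exact this

lemma val_single (c z : ℂ) : val (lp.single 2 0 c : H2) z = c := by
  unfold val
  rw [tsum_eq_single 0]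
  · simp
  · intro n hn; simp [hn]

lemma val_sub (f g : H2) (z : ℂ) (hz : ‖z‖ < 1) : val (f - g) z = val f z - val g z := by
  obtain ⟨L, hL⟩ := exists_eval z hz
  rw [← hL, ← hL, ← hL, map_sub]

/-- The bound for finite sums (subordination). -/
lemma fin_bound (φ : ℂ → ℂ) (hd : DifferentiableOn ℂ φ (ball (0 : ℂ) 1))
    (hm : Set.MapsTo φ (ball (0 : ℂ) 1) (ball (0 : ℂ) 1)) (v : ℕ → H2)
    (hv : ∀ k, ∀ z ∈ ball (0 : ℂ) 1, val (v k) z = φ z ^ k) :
    ∃ K : ℝ, 0 ≤ K ∧ ∀ (a : H2) (s : Finset ℕ),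
      ‖∑ k ∈ s, a k • v k‖ ≤ K * √(∑ k ∈ s, ‖a k‖ ^ 2) := by
  have h0mem : (0 : ℂ) ∈ ball (0 : ℂ) 1 := by simp
  have hR1 : ‖φ 0‖ < 1 := by simpa using hm h0mem
  obtain ⟨C, hC0, hC⟩ := Pool.Agent.S06599.main_ineq ‖φ 0‖ (norm_nonneg _) hR1
  obtain ⟨c, hc⟩ : ∃ c : H2, c = v 1 - lp.single 2 0 (φ 0) := ⟨_, rfl⟩
  have hcF : ∀ z ∈ ball (0 : ℂ) 1, val c z = φ z - φ 0 := by
    intro z hz
    rw [hc, val_sub _ _ z (by simpa using hz), hv 1 z hz, val_single, pow_one]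
  have h1R : 0 < 1 - ‖φ 0‖ := by linarith
  refine ⟨√(C * (‖c‖ + 1)) + (1 - ‖φ 0‖)⁻¹, by positivity, ?_⟩
  intro a s
  obtain ⟨N, hN⟩ : ∃ m, s ⊆ Finset.range m := ⟨s.sup id + 1, fun x hx => by
    simp only [Finset.mem_range]
    exact Nat.lt_succ_of_le (Finset.le_sup (f := id) hx)⟩
  obtain ⟨a', ha'⟩ : ∃ a' : ℕ → ℂ, a' = fun k => if k ∈ s then a k else 0 := ⟨_, rfl⟩
  have hsupp : ∀ j, N ≤ j → a' j = 0 := by
    intro j hj
    rw [ha']
    simp only
    rw [if_neg]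
    intro hjs
    have := Finset.mem_range.mp (hN hjs)
    omega
  have hA : ∑ j ∈ Finset.range N, ‖a' j‖ ^ 2 = ∑ k ∈ s, ‖a k‖ ^ 2 := by
    rw [← Finset.sum_subset hN (f := fun j => ‖a' j‖ ^ 2)]
    · apply Finset.sum_congr rfl
      intro k hk
      rw [ha']
      simp [hk]
    · intro k _ hk
      rw [ha']
      simp [hk]
  have hev : ∀ w : ℂ, ∑ k ∈ s, a k * w ^ k = Pool.Agent.S06599.ev a' N w := by
    intro w
    unfold Pool.Agent.S06599.ev
    rw [← Finset.sum_subset hN (f := fun j => a' j * w ^ j)]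
    · apply Finset.sum_congr rfl
      intro k hk
      rw [ha']
      simp [hk]
    · intro k _ hk
      rw [ha']
      simp [hk]
  obtain ⟨F, hF⟩ : ∃ F : H2, F = ∑ k ∈ s, a k • v k := ⟨_, rfl⟩
  have hFval : ∀ z ∈ ball (0 : ℂ) 1, val F z = Pool.Agent.S06599.ev a' N (φ z) := by
    intro z hz
    obtain ⟨L, hL⟩ := exists_eval z (by simpa using hz)
    rw [← hL, hF, map_sum, ← hev]
    apply Finset.sum_congr rfl
    intro k _
    rw [map_smul, hL, hv k z hz, smul_eq_mul]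
  obtain ⟨w0, hw0⟩ : ∃ w0 : ℂ, w0 = Pool.Agent.S06599.ev a' N (φ 0) := ⟨_, rfl⟩
  obtain ⟨b, hb⟩ : ∃ b : H2, b = F - lp.single 2 0 w0 := ⟨_, rfl⟩
  have hbF : ∀ z ∈ ball (0 : ℂ) 1, val b z =
      Pool.Agent.S06599.ev a' N (φ z) - Pool.Agent.S06599.ev a' N (φ 0) := by
    intro z hz
    rw [hb, val_sub _ _ z (by simpa using hz), hFval z hz, val_single, hw0]
  obtain ⟨A, hAdef⟩ : ∃ A : ℝ, A = ∑ k ∈ s, ‖a k‖ ^ 2 := ⟨_, rfl⟩
  have hA0 : 0 ≤ A := by rw [hAdef]; positivity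
  have hmain := hC a' N hsupp φ hd hm le_rfl (fun n => b n) (fun n => c n) (max ‖b‖ ‖c‖)
    (fun n => (coef_le b n).trans (le_max_left _ _))
    (fun n => (coef_le c n).trans (le_max_right _ _)) hbF hcF (‖c‖ + 1) (by positivity)
    (fun m => (Pool.Agent.S06599.lp_sum_le c (Finset.range m)).trans (by
      have := norm_nonneg c
      nlinarith))
  rw [hA, ← hAdef] at hmain
  have hbn : ‖b‖ ≤ √(C * (‖c‖ + 1)) * √A := by
    apply Pool.Agent.S06599.lp_norm_le b _ (by positivity)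
    intro m
    rw [mul_pow, Real.sq_sqrt (by positivity), Real.sq_sqrt hA0]
    refine (hmain m).trans (le_of_eq ?_)
    ring
  have hcoef : ∀ n, ‖a' n‖ ≤ √A := by
    intro n
    by_cases hn : n ∈ s
    · apply Real.le_sqrt_of_sq_le
      rw [hAdef, ha']
      simp only [hn, if_true]
      exact Finset.single_le_sum (f := fun k => ‖a k‖ ^ 2) (fun _ _ => by positivity) hn
    · rw [ha']
      simp only [hn, if_false, norm_zero]
      exact Real.sqrt_nonneg _
  have hw : ‖w0‖ ≤ √A * (1 - ‖φ 0‖)⁻¹ := by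
    rw [hw0]
    exact Pool.Agent.S06599.part_bound a' √A hcoef ‖φ 0‖ (norm_nonneg _) hR1 (φ 0) le_rfl N
  have hFb : F = b + lp.single 2 0 w0 := by rw [hb]; abel
  have hsn : ‖(lp.single 2 0 w0 : H2)‖ = ‖w0‖ := by rw [lp.norm_single (by norm_num)]
  rw [← hF, ← hAdef]
  calc ‖F‖ ≤ ‖b‖ + ‖(lp.single 2 0 w0 : H2)‖ := by
        conv_lhs => rw [hFb]
        exact norm_add_le _ _
    _ ≤ √(C * (‖c‖ + 1)) * √A + √A * (1 - ‖φ 0‖)⁻¹ := by
        rw [hsn]; exact add_le_add hbn hw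
    _ = (√(C * (‖c‖ + 1)) + (1 - ‖φ 0‖)⁻¹) * √A := by ring

/-- Existence of the composition operator (Littlewood). -/
lemma exists_comp (φ : ℂ → ℂ) (hd : DifferentiableOn ℂ φ (ball (0 : ℂ) 1))
    (hm : Set.MapsTo φ (ball (0 : ℂ) 1) (ball (0 : ℂ) 1)) :
    ∃ T : H2 →L[ℂ] H2, IsComp φ T := by
  have hex : ∀ k : ℕ, ∃ v : H2, ∀ z ∈ ball (0 : ℂ) 1, val v z = φ z ^ k := by
    intro k
    apply bdd_mem (fun z => φ z ^ k) (hd.pow k) 1
    intro z hz
    have h1 : ‖φ z‖ < 1 := by simpa using hm hz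
    rw [norm_pow]
    exact pow_le_one₀ (norm_nonneg _) h1.le
  choose v hv using hex
  obtain ⟨K, hK0, hK⟩ := fin_bound φ hd hm v hv
  have hsq : ∀ a : H2, Summable (fun k => ‖a k‖ ^ 2) := by
    intro a
    have := (lp.memℓp a).summable (by norm_num)
    simpa using this
  have hsum : ∀ a : H2, Summable (fun k => a k • v k) := by
    intro a
    rw [summable_iff_vanishing_norm]
    intro ε hε
    have h1 := (summable_iff_vanishing_norm.mp (hsq a)) ((ε / (K + 1)) ^ 2) (by positivity)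
    obtain ⟨s, hs⟩ := h1
    refine ⟨s, fun t ht => ?_⟩
    have h2 := hs t ht
    rw [Real.norm_of_nonneg (by positivity)] at h2
    have h3 : √(∑ k ∈ t, ‖a k‖ ^ 2) < ε / (K + 1) := by
      rw [Real.sqrt_lt' (by positivity)]
      exact h2
    calc ‖∑ k ∈ t, a k • v k‖ ≤ K * √(∑ k ∈ t, ‖a k‖ ^ 2) := hK a t
      _ ≤ K * (ε / (K + 1)) := mul_le_mul_of_nonneg_left h3.le hK0
      _ < (K + 1) * (ε / (K + 1)) := by
          apply mul_lt_mul_of_pos_right (by linarith) (by positivity)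
      _ = ε := by field_simp
  let T0 : H2 →ₗ[ℂ] H2 :=
    { toFun := fun a => ∑' k, a k • v k
      map_add' := by
        intro a b
        rw [← (hsum a).tsum_add (hsum b)]
        apply tsum_congr
        intro n
        rw [lp.coeFn_add, Pi.add_apply, add_smul]
      map_smul' := by
        intro c a
        rw [RingHom.id_apply, ← (hsum a).tsum_const_smul]
        apply tsum_congr
        intro n
        rw [lp.coeFn_smul, Pi.smul_apply, smul_eq_mul, mul_smul] }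
  have hT0 : ∀ a : H2, T0 a = ∑' k, a k • v k := fun a => rfl
  refine ⟨T0.mkContinuous K ?_, ?_⟩
  · intro a
    rw [hT0]
    have h1 : Tendsto (fun s : Finset ℕ => ∑ k ∈ s, a k • v k) atTop (𝓝 (∑' k, a k • v k)) :=
      (hsum a).hasSum
    refine le_of_tendsto' h1.norm ?_
    intro s
    refine (hK a s).trans (mul_le_mul_of_nonneg_left ?_ hK0)
    rw [show ‖a‖ = √(‖a‖ ^ 2) from (Real.sqrt_sq (norm_nonneg a)).symm]
    exact Real.sqrt_le_sqrt (Pool.Agent.S06599.lp_sum_le a s)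
  · intro a z hz
    obtain ⟨L, hL⟩ := exists_eval z (by simpa using hz)
    change val (∑' k, a k • v k) z = val a (φ z)
    rw [← hL, L.map_tsum (hsum a)]
    unfold val
    apply tsum_congr
    intro k
    rw [map_smul, hL, hv k z hz, smul_eq_mul]

/-! ### The superexponential condition -/

lemma comp_iter (φ : ℂ → ℂ) (hm : Set.MapsTo φ (ball (0 : ℂ) 1) (ball (0 : ℂ) 1))
    (T : H2 →L[ℂ] H2) (hT : IsComp φ T) (ω : ℂ) (n : ℕ) :
    hnorm (fun z => φ^[n] z - ω) = ‖(T ^ n) (lp.single 2 1 (1 : ℂ) : H2)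
      - ω • (lp.single 2 0 (1 : ℂ) : H2)‖ := by
  apply hnorm_eq
  intro z hz
  have hz' : ‖z‖ < 1 := by simpa using hz
  have h1 := Pool.Agent.S06599.iter_comp φ hm T hT n (lp.single 2 1 (1 : ℂ)) z hz
  obtain ⟨L, hL⟩ := exists_eval z hz'
  rw [val_sub _ _ z hz']
  have h2 : val (ω • (lp.single 2 0 (1 : ℂ) : H2)) z = ω := by
    rw [← hL, map_smul, hL, val_single, smul_eq_mul, mul_one]
  rw [h2]
  congr 1
  unfold val
  rw [h1, tsum_eq_single 1]
  · simp
  · intro k hk; simp [hk]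

lemma bdd_root (T : H2 →L[ℂ] H2) (ω : ℂ) (hω : ‖ω‖ ≤ 1) (n : ℕ) (hn : 1 ≤ n) :
    ‖(T ^ n) (lp.single 2 1 (1 : ℂ) : H2) - ω • (lp.single 2 0 (1 : ℂ) : H2)‖ ^ ((n : ℝ)⁻¹)
      ≤ ‖T‖ + 1 := by
  have hn0 : (0 : ℝ) < n := by exact_mod_cast hn
  have e0 : ‖(lp.single 2 0 (1 : ℂ) : H2)‖ = 1 := by
    rw [lp.norm_single (by norm_num)]; simp
  have e1 : ‖(lp.single 2 1 (1 : ℂ) : H2)‖ = 1 := by
    rw [lp.norm_single (by norm_num)]; simp
  have h1 : ‖(T ^ n) (lp.single 2 1 (1 : ℂ) : H2)‖ ≤ ‖T‖ ^ n := by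
    calc ‖(T ^ n) (lp.single 2 1 (1 : ℂ) : H2)‖ ≤ ‖T ^ n‖ * ‖(lp.single 2 1 (1 : ℂ) : H2)‖ :=
          (T ^ n).le_opNorm _
      _ ≤ ‖T‖ ^ n * 1 := by
          rw [e1]
          exact mul_le_mul_of_nonneg_right (norm_pow_le' T (by omega)) zero_le_one
      _ = ‖T‖ ^ n := mul_one _
  have h2 : ‖(T ^ n) (lp.single 2 1 (1 : ℂ) : H2) - ω • (lp.single 2 0 (1 : ℂ) : H2)‖ ≤
      (‖T‖ + 1) ^ n := by
    calc _ ≤ ‖(T ^ n) (lp.single 2 1 (1 : ℂ) : H2)‖ + ‖ω • (lp.single 2 0 (1 : ℂ) : H2)‖ :=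
          norm_sub_le _ _
      _ ≤ ‖T‖ ^ n + 1 := by
          rw [norm_smul, e0, mul_one]
          exact add_le_add h1 hω
      _ = ‖T‖ ^ n + 1 ^ n := by rw [one_pow]
      _ ≤ (‖T‖ + 1) ^ n := pow_add_pow_le (norm_nonneg T) zero_le_one (by omega)
  calc _ ≤ ((‖T‖ + 1) ^ n) ^ ((n : ℝ)⁻¹) :=
        Real.rpow_le_rpow (norm_nonneg _) h2 (by positivity)
    _ = ‖T‖ + 1 := by
        rw [← Real.rpow_natCast, ← Real.rpow_mul (by positivity), mul_inv_cancel₀ hn0.ne',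
          Real.rpow_one]

/-- Main theorem. For every analytic selfmap `φ` of the disc the composition operator exists and
is unique, and if the iterates converge superexponentially in the norm of `H²` to a point `ω` of
the disc, then its essential spectrum is `{0}`. -/
theorem result (φ : ℂ → ℂ) (hd : DifferentiableOn ℂ φ (ball (0 : ℂ) 1))
    (hm : Set.MapsTo φ (ball (0 : ℂ) 1) (ball (0 : ℂ) 1)) :
    (∃! T : H2 →L[ℂ] H2, IsComp φ T) ∧
    ∀ ω ∈ ball (0 : ℂ) 1,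
      limsup (fun n : ℕ => hnorm (fun z => φ^[n] z - ω) ^ ((n : ℝ)⁻¹)) atTop = 0 →
      ∀ T : H2 →L[ℂ] H2, IsComp φ T → essSpec T = {0} ∧ essRad T = 0 := by
  refine ⟨?_, ?_⟩
  · obtain ⟨T, hT⟩ := exists_comp φ hd hm
    refine ⟨T, hT, ?_⟩
    intro S hS
    ext1 f
    apply val_inj
    intro z hz
    rw [hS f z hz, hT f z hz]
  · intro ω hω hlim T hT
    have hω1 : ‖ω‖ ≤ 1 := by
      have : ‖ω‖ < 1 := by simpa using hω
      exact this.le
    simp only [comp_iter φ hm T hT ω] at hlim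
    have h0 : ∀ n : ℕ, 0 ≤ ‖(T ^ n) (lp.single 2 1 (1 : ℂ) : H2)
        - ω • (lp.single 2 0 (1 : ℂ) : H2)‖ ^ ((n : ℝ)⁻¹) := fun n =>
      Real.rpow_nonneg (norm_nonneg _) _
    have hbl : IsBoundedUnder (· ≤ ·) atTop (fun n : ℕ =>
        ‖(T ^ n) (lp.single 2 1 (1 : ℂ) : H2)
          - ω • (lp.single 2 0 (1 : ℂ) : H2)‖ ^ ((n : ℝ)⁻¹)) := by
      refine ⟨‖T‖ + 1, ?_⟩
      rw [eventually_map]
      filter_upwards [eventually_ge_atTop 1] with n hn
      exact bdd_root T ω hω1 n hn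
    have hbg : IsBoundedUnder (· ≥ ·) atTop (fun n : ℕ =>
        ‖(T ^ n) (lp.single 2 1 (1 : ℂ) : H2)
          - ω • (lp.single 2 0 (1 : ℂ) : H2)‖ ^ ((n : ℝ)⁻¹)) := by
      refine ⟨0, ?_⟩
      rw [eventually_map]
      exact Eventually.of_forall h0
    have hT0 : Tendsto (fun n : ℕ => ‖(T ^ n) (lp.single 2 1 (1 : ℂ) : H2)
        - ω • (lp.single 2 0 (1 : ℂ) : H2)‖ ^ ((n : ℝ)⁻¹)) atTop (𝓝 0) := by
      apply tendsto_of_le_liminf_of_limsup_le _ hlim.le hbl hbg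
      apply le_liminf_of_le hbl.isCoboundedUnder_ge
      exact Eventually.of_forall h0
    have hmain := Pool.Agent.S06599.main_thm φ ω hd hm hω T hT hT0
    have hmain' : Tendsto (fun n : ℕ => (cnorm (T ^ n)) ^ ((n : ℝ)⁻¹)) atTop (𝓝 0) := hmain
    have hspec : essSpec T = {0} :=
      Set.Subset.antisymm (spec_sub T hmain') (by
        rintro _ rfl
        exact zero_mem_spec T hmain')
    refine ⟨hspec, ?_⟩
    unfold essRad spectralRadius
    have : spectrum ℂ (img T) = {0} := hspec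
    rw [this]
    simp

end Pool.Agent.Results.MP_ed6c6b_an.CalkinSpectrum
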